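import Pool.Agent.H24.IR

set_option autoImplicit false

namespace Pool.Agent.Results.MP_4ec7af_co.CycleSeventeen

open Pool.Agent.H24.IR

/-- circulant graph on Z_17 with connection set ±1, ±2, ±3, ±4, ±5, ±7 -/
def G : SimpleGraph (Fin 17) := ofB fun a b => Nat.testBit 190 ((a.val + 17 - b.val) % 17)

instance : DecidableRel G.Adj := by unfold G; infer_instance

def X : Fin 17 → Finset (Fin 17) := ![{0, 1, 2}, {0, 1, 16}, {0, 15, 16}, {14, 15, 16}, {13, 14, 15}, {12, 13, 14}, {11, 12, 13}, {10, 11, 12}, {9, 10, 11}, {8, 9, 10}, {7, 8, 9}, {6, 7, 8}, {5, 6, 7}, {4, 5, 6}, {3, 4, 5}, {2, 3, 4}, {1, 2, 3}]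

theorem X_inj : Function.Injective X := by decide +kernel

theorem X_irr : ∀ i, Irredundant G (X i) ∧ (X i).card = 3 := by decide +kernel

def nb : Fin 17 → ℕ := ![128191, 125311, 119551, 108031, 84991, 38911, 77822, 24573, 49146, 98292, 65513, 131026, 130981, 130891, 130711, 130351, 129631]

theorem X_all : ∀ S, Irredundant G S → S.card ≤ 3 ∧ (S.card = 3 → ∃ i, S = X i) :=
  hall_three' G X nb (by decide +kernel) (by decide +kernel) (by decide +kernel)

theorem X_adj : ∀ i j : Fin 17,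
    (∃ u ∈ X i, ∃ v ∈ X j, X i \ X j = {u} ∧ X j \ X i = {v} ∧ G.Adj u v) ↔
    ((i - j).val = 1 ∨ (j - i).val = 1) := by decide +kernel

theorem result :
    ∃ G : SimpleGraph (Fin 17), Nonempty (IRGraph G ≃g SimpleGraph.cycleGraph 17) := by
  obtain ⟨e, he⟩ := equiv_of (Irredundant G) X X_inj X_irr X_all
  refine ⟨G, ⟨SimpleGraph.Iso.symm ⟨e, ?_⟩⟩⟩
  intro i j
  rw [SimpleGraph.cycleGraph_adj', ← X_adj, ← he, ← he]
  constructor
  · rintro ⟨u, v, h1, h2, h3⟩
    have hu : u ∈ (e i).1 \ (e j).1 := by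
      have : (e i).1 \ (e j).1 = {u} := h1
      rw [this]; simp
    have hv : v ∈ (e j).1 \ (e i).1 := by
      have : (e j).1 \ (e i).1 = {v} := h2
      rw [this]; simp
    exact ⟨u, (Finset.mem_sdiff.1 hu).1, v, (Finset.mem_sdiff.1 hv).1, h1, h2, h3⟩
  · rintro ⟨u, -, v, -, h⟩
    exact ⟨u, v, h⟩

end Pool.Agent.Results.MP_4ec7af_co.CycleSeventeen
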